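import Pool.Agent.Helper351.EG.Count6
import Pool.Agent.Helper351.EG.Split

/-!
# `r + 1` vertices missing a colour in every `r`-colouring of `K_n`, `n ≥ r ^ 2 + ⌊r / 2⌋ + 1`

The question (Erdős-Gyárfás) asks this for `n = r ^ 2 + 1`, `r ≥ 3`; it is false for `n = r ^ 2` for
infinitely many `r`.

Proof. Assume that any `r + 1` vertices see all colours. In a colour class `G` any `m ≥ r` vertices
miss at least `(r - 1) (m - r)` edges, because every other colour has at least `m - r` edges there.
By induction on `t` a set `W` without `t + 1` independent vertices contains at least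
`t * r (r - 1) / 2 + (2 r - 1) (|W| - t r)` edges: delete a vertex of minimum degree together with
its neighbours. For `t = r` and `|W| = r ^ 2 + ⌊r / 2⌋ + 1` this is more than the average number
of edges of a colour.
-/

set_option autoImplicit false

namespace Pool.Agent.Results.MP_f04ccf_co.NearSquare

open Finset Pool.Agent.Helper351.EG

theorem edge_bound {V : Type} [DecidableEq V] (G : SimpleGraph V) [DecidableRel G.Adj] (m : ℕ)
    (hC : ∀ M : Finset V, e2 G M + 2 * m * (M.card - (m + 1)) ≤ M.card * (M.card - 1)) (t : ℕ) :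
    ∀ W : Finset V, IndLe G W t →
      t * ((m + 1) * m) + 2 * (2 * m + 1) * W.card ≤ e2 G W + 2 * (2 * m + 1) * (t * (m + 1)) := by
  classical
  induction t with
  | zero =>
    intro W h0
    have hW : W = ∅ := by
      rcases W.eq_empty_or_nonempty with h | ⟨v, hv⟩
      · exact h
      · exfalso
        have := h0 {v} (by simpa using hv) (by
          intro x hx y hy hxy
          rw [mem_singleton.1 hx, mem_singleton.1 hy] at hxy
          exact G.irrefl hxy)
        simp at this
    subst hW
    simp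
  | succ t ih =>
    intro W h1
    rcases W.eq_empty_or_nonempty with h | hne
    · subst h
      simp only [card_empty, mul_zero, add_zero]
      nlinarith [Nat.zero_le (e2 G ∅), Nat.zero_le ((t + 1) * (m + 1) * (3 * m + 2))]
    obtain ⟨v, hv, hmin⟩ := exists_min_image W (fun v => deg G W v) hne
    set N : Finset V := W.filter (fun w => ¬ (w ≠ v ∧ ¬ G.Adj v w)) with hN
    have hNW : N ⊆ W := filter_subset _ _
    have hW' : W \ N = W.filter (fun w => w ≠ v ∧ ¬ G.Adj v w) := by
      ext w
      rw [hN, mem_sdiff, mem_filter, mem_filter]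
      tauto
    have hNc : N.card = deg G W v + 1 := by
      have : N = insert v (W.filter (fun w => G.Adj v w)) := by
        ext w
        rw [hN, mem_filter, mem_insert, mem_filter]
        constructor
        · rintro ⟨hw, hw'⟩
          by_cases hwv : w = v
          · exact Or.inl hwv
          · right
            refine ⟨hw, ?_⟩
            by_contra hna
            exact hw' ⟨hwv, hna⟩
        · rintro (rfl | ⟨hw, hadj⟩)
          · exact ⟨hv, fun h => h.1 rfl⟩
          · exact ⟨hw, fun h => h.2 hadj⟩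
      rw [this, card_insert_of_notMem]
      · rfl
      · rw [mem_filter]
        exact fun h => G.irrefl h.2
    have hI : IndLe G (W \ N) t := by
      rw [hW']
      exact indLe_remove_nbhd G W t h1 v hv
    have h2 := ih (W \ N) hI
    have h3 := e2_split G W N hNW
    have h4 : N.card * (N.card - 1) ≤ ∑ x ∈ N, deg G W x := by
      have h5 := card_nsmul_le_sum N (fun x => deg G W x) (deg G W v) (fun x hx => hmin x (hNW hx))
      rw [smul_eq_mul] at h5
      have h6 : N.card - 1 = deg G W v := by omega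
      rw [h6]
      exact h5
    have h5 : (W \ N).card + N.card = W.card := by
      rw [card_sdiff_of_subset hNW]
      have := card_le_card hNW
      omega
    have h6 := hC N
    rw [← h5]
    generalize hc : N.card = c at *
    generalize hw : (W \ N).card = w at *
    generalize e2 G (W \ N) = e' at *
    generalize e2 G N = eN at *
    generalize e2 G W = e at *
    generalize ∑ x ∈ N, deg G W x = S at *
    have hc1 : 1 ≤ c := by omega
    obtain ⟨b, rfl⟩ : ∃ b, c = b + 1 := ⟨c - 1, by omega⟩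
    simp only [Nat.add_sub_cancel] at h4 h6
    rcases Nat.lt_or_ge m b with hmb | hmb
    · -- `c = m + 1 + j`, `j ≥ 1`
      obtain ⟨j, rfl⟩ : ∃ j, b = m + 1 + j := ⟨b - (m + 1), by omega⟩
      have h7 : m + 1 + j + 1 - (m + 1) = j + 1 := by omega
      rw [h7] at h6
      nlinarith [h2, h3, h4, h6, Nat.zero_le (j * (j + 1)), Nat.zero_le j]
    · obtain ⟨d, rfl⟩ : ∃ d, m = b + d := ⟨m - b, by omega⟩
      have h7 : b + 1 - (b + d + 1) = 0 := by omega
      rw [h7, mul_zero, add_zero] at h6
      nlinarith [h2, h3, h4, h6, Nat.zero_le (d * d), Nat.zero_le (d * b), Nat.zero_le d]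

/-- The colouring `c` of the edges of the complete graph on `Fin n` has a set of `r + 1` vertices
that misses a colour. -/
def Misses {n r : ℕ} (c : Fin n → Fin n → Fin r) : Prop :=
  ∃ S : Finset (Fin n), S.card = r + 1 ∧
    ∃ k : Fin r, ∀ x ∈ S, ∀ y ∈ S, x ≠ y → c x y ≠ k

/-- Twice the number of edges of colour `k` with both ends in `W` (the number of ordered pairs). -/
def pairs {n r : ℕ} (c : Fin n → Fin n → Fin r) (k : Fin r) (W : Finset (Fin n)) : ℕ :=
  ((W ×ˢ W).filter (fun p => p.1 ≠ p.2 ∧ c p.1 p.2 = k)).card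

theorem pairs_eq {n r : ℕ} (c : Fin n → Fin n → Fin r) (hc : ∀ x y, c x y = c y x) (k : Fin r)
    (W : Finset (Fin n)) : pairs c k W = e2 (colG c hc k) W := by
  classical
  unfold pairs e2 deg
  rw [card_filter, sum_product]
  refine sum_congr rfl fun x _ => ?_
  rw [card_filter]
  rfl

theorem colour_bound {n r : ℕ} (hr : 1 ≤ r) (c : Fin n → Fin n → Fin r)
    (hc : ∀ x y, c x y = c y x) (hs : AllSee c) (k : Fin r) (t : ℕ) (W : Finset (Fin n))
    (hW : IndLe (colG c hc k) W t) :
    t * (r * (r - 1)) + 2 * (2 * r - 1) * W.card ≤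
      e2 (colG c hc k) W + 2 * (2 * r - 1) * (t * r) := by
  obtain ⟨m, rfl⟩ : ∃ m, r = m + 1 := ⟨r - 1, by omega⟩
  have h1 : 2 * (m + 1) - 1 = 2 * m + 1 := by omega
  have h2 : m + 1 - 1 = m := by omega
  rw [h1, h2]
  refine edge_bound (colG c hc k) m (fun M => ?_) t W hW
  have := C_gen hr c hc (fun k W => C_ind c hc hs k W) k M
  rw [h2] at this
  exact this

theorem main (r : ℕ) (hr : 2 ≤ r) (n : ℕ) (hn : r ^ 2 + r / 2 + 1 ≤ n)
    (c : Fin n → Fin n → Fin r) (hc : ∀ x y, c x y = c y x) : Misses c := by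
  by_contra hm
  have hs : AllSee c := AllSee_of_not c hm
  obtain ⟨W, -, hWc⟩ := exists_subset_card_eq
    (show r ^ 2 + (r / 2 + 1) ≤ (univ : Finset (Fin n)).card by
      rw [card_univ, Fintype.card_fin]; omega)
  have h1 := sum_e2 c hc W
  have h2 : ∀ k ∈ (univ : Finset (Fin r)),
      r * (r * (r - 1)) + 2 * (2 * r - 1) * (r / 2 + 1) ≤ e2 (colG c hc k) W := by
    intro k _
    have := colour_bound (by omega) c hc hs k r W (C_ind c hc hs k W)
    rw [hWc, mul_add] at this
    have h3 : 2 * (2 * r - 1) * r ^ 2 = 2 * (2 * r - 1) * (r * r) := by rw [sq]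
    omega
  have h3 := card_nsmul_le_sum _ _ _ h2
  rw [h1, hWc, card_univ, Fintype.card_fin, smul_eq_mul] at h3
  generalize hs' : r / 2 + 1 = s at h3
  have h4 : r + 1 ≤ 2 * s := by omega
  have h5 : s ≤ r := by omega
  obtain ⟨m, rfl⟩ : ∃ m, r = m + 1 := ⟨r - 1, by omega⟩
  have h6 : 2 * (m + 1) - 1 = 2 * m + 1 := by omega
  have h7 : m + 1 - 1 = m := by omega
  have h8 : (m + 1) ^ 2 + s - 1 = m * m + 2 * m + s := by
    have : (m + 1) ^ 2 = m * m + 2 * m + 1 := by ring
    omega
  rw [h6, h7, h8] at h3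
  have hm1 : 1 ≤ m := by omega
  have hs1 : 1 ≤ s := by omega
  have hs2 : s ≤ m + 1 := h5
  -- `2 m (m + 1) s ≥ m (m + 1) (m + 2)`
  have h9 : m * (m + 1) * (m + 2) ≤ m * (m + 1) * (2 * s) := Nat.mul_le_mul_left _ (by omega)
  rcases Nat.lt_or_ge s (m + 1) with h10 | h10
  · have h11 : s * s ≤ s * m := Nat.mul_le_mul_left _ (by omega)
    have h12 : s * m ≤ m * m := Nat.mul_le_mul_right _ (by omega)
    nlinarith
  · have h11 : s = m + 1 := by omega
    subst h11
    have h13 : m = 1 := by omega
    subst h13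
    omega

/-- (1) For `r ≥ 2` and `n ≥ r ^ 2 + ⌊r / 2⌋ + 1` every `r`-colouring of the edges of `K_n` has
`r + 1` vertices that miss a colour.
(2) In an `r`-colouring of `K_n`, `n` arbitrary, in which any `r + 1` vertices see all colours: if
any `t + 1` vertices of `W` span an edge of colour `k`, then `W` contains at least
`t r (r - 1) / 2 + (2 r - 1) (|W| - t r)` edges of colour `k`. -/
theorem result :
    (∀ r : ℕ, 2 ≤ r → ∀ n : ℕ, r ^ 2 + r / 2 + 1 ≤ n → ∀ c : Fin n → Fin n → Fin r,
      (∀ x y, c x y = c y x) → Misses c) ∧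
    (∀ r : ℕ, 1 ≤ r → ∀ n : ℕ, ∀ c : Fin n → Fin n → Fin r, (∀ x y, c x y = c y x) →
      ¬ Misses c → ∀ k : Fin r, ∀ t : ℕ, ∀ W : Finset (Fin n),
      (∀ T ⊆ W, T.card = t + 1 → ∃ x ∈ T, ∃ y ∈ T, x ≠ y ∧ c x y = k) →
      (t : ℤ) * (r * (r - 1)) + 2 * (2 * r - 1) * ((W.card : ℤ) - t * r) ≤ pairs c k W) := by
  refine ⟨fun r hr n hn c hc => main r hr n hn c hc, ?_⟩
  intro r hr n c hc hm k t W hW
  have hI : IndLe (colG c hc k) W t := by
    intro T hT hTi
    by_contra hlt
    push Not at hlt
    obtain ⟨M, hMT, hMc⟩ := exists_subset_card_eq (show t + 1 ≤ T.card by omega)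
    obtain ⟨x, hx, y, hy, hxy, he⟩ := hW M (hMT.trans hT) hMc
    exact hTi x (hMT hx) y (hMT hy) ⟨hxy, he⟩
  have h1 := colour_bound hr c hc (AllSee_of_not c hm) k t W hI
  rw [pairs_eq c hc k W]
  obtain ⟨m, rfl⟩ : ∃ m, r = m + 1 := ⟨r - 1, by omega⟩
  have h6 : 2 * (m + 1) - 1 = 2 * m + 1 := by omega
  have h7 : m + 1 - 1 = m := by omega
  rw [h6, h7] at h1
  zify at h1
  push_cast
  linarith

end Pool.Agent.Results.MP_f04ccf_co.NearSquare
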